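import Mathlib
import Pool.Agent.V11278.Upcycle

/-!
# Universal partial cycles for long words

For every `n` divisible by `4`, `n > 0`, there is a non-trivial universal partial cycle over four
letters for words of length `n`.
-/

set_option autoImplicit false

namespace Pool.Agent.Results.MP_0aa0f2_co.LongWords

/-- The window at position `i` of the cyclic partial word `u` (`none` is the diamond) covers `w`. -/
def Covers {a n N : ℕ} (u : ZMod N → Option (Fin a)) (i : ZMod N) (w : Fin n → Fin a) : Prop :=
  ∀ j : Fin n, u (i + (j.val : ZMod N)) = none ∨ u (i + (j.val : ZMod N)) = some (w j)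

/-- `u` is a non-trivial universal partial cycle for the words of length `n`: its length is positive,
every word is covered by exactly one window, and `u` contains a diamond and a letter. -/
def IsNontrivialUpcycle {a N : ℕ} (n : ℕ) (u : ZMod N → Option (Fin a)) : Prop :=
  0 < N ∧ (∀ w : Fin n → Fin a, ∃! i : ZMod N, Covers u i w) ∧
    (∃ i, u i = none) ∧ ∃ i, u i ≠ none

/-- For every positive multiple `n` of `4` there is a non-trivial upcycle for words of length `n` over
four letters; in particular for infinitely many `n` other than `4` and `8`. -/
theorem result (n : ℕ) (hn : 0 < n) (h4 : 4 ∣ n) :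
    ∃ (N : ℕ) (u : ZMod N → Option (Fin 4)), IsNontrivialUpcycle n u := by
  obtain ⟨k, rfl⟩ := h4
  obtain ⟨N, u, hN, hu, hd⟩ := Pool.Agent.V11278.Upcycle.main_fin k (by omega)
  refine ⟨N, u, hN, hu, ?_, ?_⟩
  · by_contra h
    push Not at h
    have h1 := hd 0
    rw [Finset.filter_false_of_mem (fun j _ => h _), Finset.card_empty] at h1
    omega
  · by_contra h
    push Not at h
    have h1 := hd 0
    rw [Finset.filter_true_of_mem (fun j _ => h _), Finset.card_univ, Fintype.card_fin] at h1
    omega

end Pool.Agent.Results.MP_0aa0f2_co.LongWords
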